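import Pool.Agent.W473.Main7

/-!
The statement of the question is false over every number field: there are an abelian scheme of
relative dimension `4` over the curve `Spec K[t, 1/(t(t+1))]` and an irreducible closed subvariety
`X` of dimension `d ≤ 2` which lies in no strict closed subgroup scheme, such that every closed
point of `X` lies in a closed subgroup of dimension at most one of a fibre.
-/

namespace Pool.Agent.Results.MP_28d749_ag.PinkStatementFails

/-- For every number field `K` the statement of the question over `K` is false. -/
theorem result (K : Type) [Field K] [NumberField K] : ¬ Pool.Agent.W473.Pink.Conjecture K :=
  Pool.Agent.W473.not_conjecture K

end Pool.Agent.Results.MP_28d749_ag.PinkStatementFails
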